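import Pool.Agent.V1121.FC.Final

/-!
# Goddyn's conjecture for translation invariant weights of Cayley graphs

A faithful circuit cover is a finite list of closed walks that are cycles (Mathlib's
`SimpleGraph.Walk.IsCycle`); an edge belongs to the cycle `c` when it is in `c.edges`.
-/

set_option autoImplicit false

open scoped Classical

namespace Pool.Agent.Results.MP_5dc923_co.CayleyGraphs

open Finset

/-- Let `G` be a graph whose vertex set is a finite group `Γ` and which is invariant under all left
translations (a Cayley graph), and let `w` be a weight of its edges with values in the natural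
numbers, invariant under all left translations, such that no edge weighs more than half of the total
weight at its ends.
1. If the total weight at every vertex is even, then `(G, w)` has a faithful circuit cover: some
   finite list of cycles contains each edge `e` exactly `w e` times.
2. In any case `(G, 2 w)` has a faithful cover by directed circuits: some finite list of cycles, each
   with a direction, traverses each edge `e` exactly `w e` times in each of its two directions. -/
theorem result (Γ : Type) [Group Γ] [Fintype Γ] (G : SimpleGraph Γ) (w : Sym2 Γ → ℕ)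
    (hG : ∀ g x y : Γ, G.Adj x y → G.Adj (g * x) (g * y))
    (hw : ∀ g x y : Γ, G.Adj x y → w s(g * x, g * y) = w s(x, y))
    (hadm : ∀ x y : Γ, G.Adj x y →
      2 * w s(x, y) ≤ ∑ z ∈ univ.filter (fun z => G.Adj x z), w s(x, z)) :
    ((∀ x : Γ, Even (∑ z ∈ univ.filter (fun z => G.Adj x z), w s(x, z))) →
      ∃ C : List (Σ v : Γ, G.Walk v v), (∀ c ∈ C, c.2.IsCycle) ∧
        ∀ e ∈ G.edgeSet, C.countP (fun c => decide (e ∈ c.2.edges)) = w e) ∧
    ∃ C : List (Σ v : Γ, G.Walk v v), (∀ c ∈ C, c.2.IsCycle) ∧
      ∀ u v : Γ, G.Adj u v →
        (C.map (fun c => c.2.darts.countP (fun d => decide (d.toProd = (u, v))))).sum =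
          w s(u, v) := by
  refine ⟨fun heul => ?_, ?_⟩
  · exact Pool.Agent.V1121.FC.final_cov w hG hw hadm heul
  · obtain ⟨C, hC, hC2⟩ := Pool.Agent.V1121.FC.final_dcov w hG hw hadm
    refine ⟨C, hC, fun u v h => ?_⟩
    rw [← hC2 u v h]

end Pool.Agent.Results.MP_5dc923_co.CayleyGraphs
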