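import Pool.Agent.W831.HI.Loops
import Pool.Agent.H655R2.GOD.Main

/-!
# Goddyn's conjecture: a near-constant even weight minus a sum of circuits

`MGraph V E` (`Pool/Agent/H126R2/CDC/Defs.lean`) is a finite graph with loops and parallel edges,
`G.ends e` is the unordered pair of the ends of `e`, `G.IsCircuit C` says that `C` is the edge set of
a circuit, `G.Bridgeless` that every edge lies in a circuit; `cut G X`
(`Pool/Agent/H655R2/GOD/`) is the set of the edges with exactly one end in `X`.
-/

set_option autoImplicit false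

namespace Pool.Agent.Results.MP_5dc923_co.NearConstantMinusCircuits

open Finset
open Pool.Agent.H126R2.CDC (MGraph)
open Pool.Agent.H655R2.GOD (cut)

/-- Let `G` be a finite bridgeless graph, `q` an even weight, admissible on the edge cuts, with
`8 q e ≤ 9 q f` for all edges `e`, `f` (for instance an even constant, or `0`), let `C i` be finitely
many circuits, `O j` finitely many edge sets with all degrees even, `n i`, `m j` natural numbers, `D` a
finite family of circuits and `w` the weight `q e + ∑ i, (2 n i + 2 [n i is odd]) -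
∑ i, n i [e ∈ C i] + ∑ j, 4 m j - ∑ j, m j [e ∈ O j] + #{X ∈ D | e ∈ X}`.
Then `(G, w)` has a faithful circuit cover. -/
theorem result {V E : Type} [Fintype V] [DecidableEq V] [Fintype E] [DecidableEq E]
    (G : MGraph V E) (hG : G.Bridgeless) (q : E → ℕ) (hq : ∀ e, Even (q e))
    (hr : ∀ e f, 8 * q e ≤ 9 * q f)
    (hadm : ∀ X : Finset V, ∀ e ∈ cut G X, 2 * q e ≤ ∑ f ∈ cut G X, q f)
    {ι : Type} [Fintype ι] (C : ι → Finset E) (hC : ∀ i, G.IsCircuit (C i)) (n : ι → ℕ)
    {κ : Type} [Fintype κ] (O : κ → Finset E) (hO : ∀ j v, Even (G.deg (O j) v)) (m : κ → ℕ)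
    (D : Multiset (Finset E)) (hD : ∀ X ∈ D, G.IsCircuit X) (w : E → ℕ)
    (hw : ∀ e, w e + ∑ i, (if e ∈ C i then n i else 0) + ∑ j, (if e ∈ O j then m j else 0) =
      q e + ∑ i, (2 * n i + if Even (n i) then 0 else 2) + ∑ j, 4 * m j +
        D.countP (fun X => e ∈ X)) :
    ∃ F : Multiset (Finset E), (∀ X ∈ F, G.IsCircuit X) ∧
      ∀ e, F.countP (fun X => e ∈ X) = w e := by
  classical
  -- the near-constant part
  obtain ⟨F1, hF1, hF1'⟩ : ∃ F : Multiset (Finset E), (∀ X ∈ F, G.IsCircuit X) ∧
      ∀ e, F.countP (fun X => e ∈ X) = q e := by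
    by_cases h0 : ∃ f, q f = 0
    · obtain ⟨f, hf⟩ := h0
      refine ⟨0, by simp, fun e => ?_⟩
      have := hr e f
      rw [hf] at this
      simp only [Multiset.countP_zero]
      omega
    · push Not at h0
      exact Pool.Agent.H655R2.GOD.near G q (fun e => Nat.pos_of_ne_zero (h0 e))
        (fun X => Finset.even_sum _ (fun e _ => hq e)) hadm q hq hr 0 (Or.inl fun e => by ring)
  have key : ∀ i, ∃ F : Multiset (Finset E), (∀ X ∈ F, G.IsCircuit X) ∧
      ∀ e, F.countP (fun X => e ∈ X) =
        if e ∈ C i then (n i + if Even (n i) then 0 else 2)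
        else (2 * n i + if Even (n i) then 0 else 2) := by
    intro i
    apply Pool.Agent.W831.HI.two_valued G hG (C i) (hC i)
    · by_cases h : Even (n i)
      · rw [if_pos h, add_zero]; exact even_two_mul _
      · rw [if_neg h]; exact ⟨n i + 1, by ring⟩
    · split_ifs <;> omega
    · intro h
      by_cases h' : Even (n i)
      · rw [if_pos h', add_zero]; exact h'
      · exfalso
        rw [if_neg h'] at h
        omega
  choose F0 hF0 hF0' using key
  have key2 : ∀ j, ∃ F : Multiset (Finset E), (∀ X ∈ F, G.IsCircuit X) ∧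
      ∀ e, F.countP (fun X => e ∈ X) = m j * if e ∈ O j then 3 else 4 := by
    intro j
    obtain ⟨v, hv⟩ := G.exists_halves
    exact Pool.Agent.H655R2.GOD.smul_cover G (m j)
      (Pool.Agent.H655R2.GOD.cover_four G v hv (G.no_one_cut hG v hv) (O j) (hO j))
  choose F3 hF3 hF3' using key2
  refine ⟨F1 + (∑ i, F0 i) + (∑ j, F3 j) + D, ?_, fun e => ?_⟩
  · intro X hX
    rw [Multiset.mem_add, Multiset.mem_add, Multiset.mem_add] at hX
    rcases hX with ((hX | hX) | hX) | hX
    · exact hF1 X hX
    · rw [Multiset.mem_sum] at hX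
      obtain ⟨i, _, hX⟩ := hX
      exact hF0 i X hX
    · rw [Multiset.mem_sum] at hX
      obtain ⟨i, _, hX⟩ := hX
      exact hF3 i X hX
    · exact hD X hX
  · rw [Multiset.countP_add, Multiset.countP_add, Multiset.countP_add, hF1' e,
      Pool.Agent.W831.HI.countP_sum, Pool.Agent.W831.HI.countP_sum]
    have h3 : ∑ j, (F3 j).countP (fun X => e ∈ X) + (∑ j, if e ∈ O j then m j else 0) =
        ∑ j, 4 * m j := by
      rw [← Finset.sum_add_distrib]
      apply Finset.sum_congr rfl
      intro j _
      rw [hF3' j e]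
      split_ifs <;> ring
    have h1 : ∑ i, (F0 i).countP (fun X => e ∈ X) + (∑ i, if e ∈ C i then n i else 0) =
        ∑ i, (2 * n i + if Even (n i) then 0 else 2) := by
      rw [← Finset.sum_add_distrib]
      apply Finset.sum_congr rfl
      intro i _
      rw [hF0' i e]
      split_ifs <;> ring
    have h2 := hw e
    omega

end Pool.Agent.Results.MP_5dc923_co.NearConstantMinusCircuits
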